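import Pool.Agent.H484.HH.Stm

/-!
# HH-KER: bound for the Dirichlet kernel on `ZMod N`
-/

set_option autoImplicit false

open Finset

namespace Pool.Agent.H484.HH

theorem t_KER : S_KER := by
  intro N _ k z n
  have hN : (0 : ℝ) < N := by exact_mod_cast Nat.pos_of_ne_zero (NeZero.ne N)
  set χ : AddChar (ZMod N) ℂ := ZMod.stdAddChar with hχ
  have hnorm : ∀ x : ZMod N, ‖χ x‖ = 1 := fun x => AddChar.norm_apply χ x
  constructor
  · refine (norm_sum_le _ _).trans (le_of_eq ?_)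
    rw [Finset.sum_congr rfl fun i _ => hnorm _, Finset.sum_const, card_range]
    simp
  set w : ℂ := χ (-k) with hw
  have hterm : ∀ i : ℕ, χ (-(k * (z + (i : ZMod N)))) = χ (-(k * z)) * w ^ i := by
    intro i
    rw [hw, ← AddChar.map_nsmul_eq_pow, ← AddChar.map_add_eq_mul]
    congr 1
    rw [nsmul_eq_mul]
    ring
  have hsum : ∑ i ∈ range n, χ (-(k * (z + (i : ZMod N)))) =
      χ (-(k * z)) * ∑ i ∈ range n, w ^ i := by
    rw [Finset.mul_sum]
    exact Finset.sum_congr rfl fun i _ => hterm i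
  rw [hsum, norm_mul, hnorm, one_mul]
  have hgeom : (∑ i ∈ range n, w ^ i) * (w - 1) = w ^ n - 1 := geom_sum_mul w n
  have hle : ‖∑ i ∈ range n, w ^ i‖ * ‖w - 1‖ ≤ 2 := by
    rw [← norm_mul, hgeom]
    refine (norm_sub_le _ _).trans ?_
    rw [norm_pow, hw, hnorm, one_pow, norm_one]
    norm_num
  -- the lower bound for `‖w - 1‖`
  set a : ℤ := k.valMinAbs with ha
  have habs : ((a.natAbs : ℕ) : ℝ) = |(a : ℝ)| := by
    rw [Nat.cast_natAbs, Int.cast_abs]
  have ha2 : |(a : ℝ)| ≤ N / 2 := by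
    have h1 : a.natAbs ≤ N / 2 := ZMod.natAbs_valMinAbs_le k
    have h2 : ((a.natAbs : ℕ) : ℝ) ≤ ((N / 2 : ℕ) : ℝ) := by exact_mod_cast h1
    rw [← habs]
    exact h2.trans Nat.cast_div_le
  have hwe : w = Complex.exp (Complex.I * ((-(2 * Real.pi * a / N) : ℝ) : ℂ)) := by
    have h1 : -k = ((-a : ℤ) : ZMod N) := by
      rw [Int.cast_neg, ha, ZMod.coe_valMinAbs]
    rw [hw, h1, hχ, ZMod.stdAddChar_coe]
    congr 1
    push_cast
    ring
  have hlow : 4 * |(a : ℝ)| / N ≤ ‖w - 1‖ := by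
    rw [hwe, Complex.norm_exp_I_mul_ofReal_sub_one]
    have h1 : -(2 * Real.pi * a / N) / 2 = -(Real.pi * a / N) := by ring
    rw [h1, Real.sin_neg, mul_neg, norm_neg, norm_mul, Real.norm_eq_abs, Real.norm_eq_abs, abs_two]
    have h2 : |Real.sin (Real.pi * a / N)| = Real.sin (Real.pi * |(a : ℝ)| / N) := by
      have h4 : 0 ≤ Real.pi * |(a : ℝ)| / N := by positivity
      have h5 : Real.pi * |(a : ℝ)| / N ≤ Real.pi := by
        rw [div_le_iff₀ hN]
        have : |(a : ℝ)| ≤ N := by linarith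
        exact mul_le_mul_of_nonneg_left this Real.pi_pos.le
      rcases le_total 0 (a : ℝ) with h3 | h3
      · rw [abs_of_nonneg h3] at h4 h5 ⊢
        rw [abs_of_nonneg (Real.sin_nonneg_of_nonneg_of_le_pi h4 h5)]
      · rw [abs_of_nonpos h3] at h4 h5 ⊢
        have h6 : Real.pi * -(a : ℝ) / N = -(Real.pi * a / N) := by ring
        have h7 := Real.sin_nonneg_of_nonneg_of_le_pi h4 h5
        rw [h6, Real.sin_neg] at h7 ⊢
        rw [abs_of_nonpos (by linarith)]
    rw [h2]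
    have h8 : 2 / Real.pi * (Real.pi * |(a : ℝ)| / N) ≤ Real.sin (Real.pi * |(a : ℝ)| / N) := by
      apply Real.mul_le_sin
      · positivity
      · rw [div_le_iff₀ hN]
        have := mul_le_mul_of_nonneg_left ha2 Real.pi_pos.le
        linarith
    have h9 : 2 / Real.pi * (Real.pi * |(a : ℝ)| / N) = 2 * |(a : ℝ)| / N := by
      field_simp
    rw [h9] at h8
    have h10 : 4 * |(a : ℝ)| / N = 2 * (2 * |(a : ℝ)| / N) := by ring
    rw [h10]
    linarith
  rw [habs]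
  have h11 : ‖∑ i ∈ range n, w ^ i‖ * (4 * |(a : ℝ)| / N) ≤ 2 :=
    (mul_le_mul_of_nonneg_left hlow (norm_nonneg _)).trans hle
  have h12 : ‖∑ i ∈ range n, w ^ i‖ * (4 * |(a : ℝ)| / N) =
      ‖∑ i ∈ range n, w ^ i‖ * (4 * |(a : ℝ)|) / N := by ring
  rw [h12, div_le_iff₀ hN] at h11
  linarith

end Pool.Agent.H484.HH
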